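import Pool.Agent.Helper61.P3.St5
import Pool.Agent.Helper14.EQ.M_PIG

/-!
# Project P3 (MP_cb927e_an): module HTS (heights)
-/

set_option autoImplicit false

open MeasureTheory Set Filter Topology
open scoped ENNReal RealInnerProductSpace

namespace Pool.Agent.Helper66.P3

open Pool.Agent.Helper61.P3 Pool.Agent.Helper20.RG Pool.Agent.Helper20.EQ
open Pool.Agent.Helper68.LM (Pl BB Bd Av HL ft fm DQ)
open Pool.Agent.Helper68.EP (elt GapP)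

lemma sum_Icc_le (G : ℤ → ℝ≥0∞) (l J₁ : ℤ) :
    ∑ J ∈ Finset.Icc (l - 1) J₁, G J ≤ ∑' n : ℕ, G (l - 1 + n) := by
  classical
  have h1 : ∑ J ∈ Finset.Icc (l - 1) J₁, G J =
      ∑ J ∈ Finset.Icc (l - 1) J₁, (if l - 1 ≤ J then G J else 0) := by
    refine Finset.sum_congr rfl fun J hJ => ?_
    rw [if_pos (Finset.mem_Icc.1 hJ).1]
  rw [h1]
  refine (ENNReal.sum_le_tsum _).trans (le_of_eq ?_)
  have hinj : Function.Injective (fun n : ℕ => l - 1 + (n : ℤ)) := by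
    intro a b hab
    simp only at hab
    omega
  rw [← hinj.tsum_eq]
  · refine tsum_congr fun n => ?_
    rw [if_pos (by omega)]
  · intro J hJ
    rw [Function.mem_support] at hJ
    by_cases h : l - 1 ≤ J
    · refine ⟨(J - (l - 1)).toNat, ?_⟩
      simp only
      omega
    · exact absurd (if_neg h) hJ

/-- one chord -/
lemma one_chord (hYB : StYB) (φ τ : ℝ → ℝ) (c : Pl) (hG : Graph φ τ) (f : Pl → ℝ) (hf : BB f)
    (l k : ℤ) (x : Pl) (u j : ℕ) :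
    ‖Zc c φ τ u 0 k j (fh l f) x‖ₑ ≤ ENNReal.ofReal ((2 : ℝ) ^ l) *
      ∑' n : ℕ, ENNReal.ofReal ((2 : ℝ) ^ n) * ‖Zc c φ τ u 0 k j (lev f (l - 1 + n)) x‖ₑ := by
  obtain ⟨K, hK, _⟩ := hf.2
  obtain ⟨N, hN⟩ := pow_unbounded_of_one_lt K (one_lt_two : (1 : ℝ) < 2)
  have h1 : ∀ x, f x < (2 : ℝ) ^ ((N : ℤ) - 1 + 1) := by
    intro x
    rw [sub_add_cancel, zpow_natCast]
    exact lt_of_le_of_lt ((le_abs_self _).trans (hK x)) hN
  rw [Pool.Agent.Helper14.EQ.pig_Zc_sum hYB φ τ c hG f hf l ((N : ℤ) - 1) k h1 x u j]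
  refine (enorm_sum_le _ _).trans ?_
  refine (sum_Icc_le (fun J => ‖(2 : ℝ) ^ (J + 1) * Zc c φ τ u 0 k j (lev f J) x‖ₑ) l
    ((N : ℤ) - 1)).trans (le_of_eq ?_)
  rw [← ENNReal.tsum_mul_left]
  refine tsum_congr fun n => ?_
  rw [enorm_mul]
  have e1 : ‖(2 : ℝ) ^ (l - 1 + (n : ℤ) + 1)‖ₑ =
      ENNReal.ofReal ((2 : ℝ) ^ l) * ENNReal.ofReal ((2 : ℝ) ^ n) := by
    rw [← ENNReal.ofReal_mul (by positivity), ← ofReal_norm, Real.norm_eq_abs,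
      abs_of_pos (by positivity), show l - 1 + (n : ℤ) + 1 = l + n by ring,
      zpow_add₀ (by norm_num), zpow_natCast]
  rw [e1, mul_assoc]

theorem hHTS (hYB : Pool.Agent.Helper20.RG.StYB) : Pool.Agent.Helper61.P3.StHTS := by
  intro φ τ c hG κ u k l f x hf _
  unfold Ht HtF HtM
  rw [← mul_add, ← Finset.sum_add_distrib]
  have e : ∀ j : ℕ,
      (∑' n : ℕ, (if u ≤ κ * n then ENNReal.ofReal ((2 : ℝ) ^ n) *
        ‖Zc c φ τ u 0 k j (lev f (l - 1 + n)) x‖ₑ else 0)) +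
      (∑' n : ℕ, (if κ * n < u then ENNReal.ofReal ((2 : ℝ) ^ n) *
        ‖Zc c φ τ u 0 k j (lev f (l - 1 + n)) x‖ₑ else 0)) =
      ∑' n : ℕ, ENNReal.ofReal ((2 : ℝ) ^ n) * ‖Zc c φ τ u 0 k j (lev f (l - 1 + n)) x‖ₑ := by
    intro j
    rw [← ENNReal.tsum_add]
    refine tsum_congr fun n => ?_
    by_cases h : u ≤ κ * n
    · rw [if_pos h, if_neg (not_lt.2 h), add_zero]
    · rw [if_neg h, if_pos (not_le.1 h), zero_add]
  simp only [e]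
  calc ENNReal.ofReal (1 / (2 : ℝ) ^ u) *
        ∑ j ∈ Finset.range (2 ^ u), ‖Zc c φ τ u 0 k j (fh l f) x‖ₑ
      ≤ ENNReal.ofReal (1 / (2 : ℝ) ^ u) * ∑ j ∈ Finset.range (2 ^ u),
        (ENNReal.ofReal ((2 : ℝ) ^ l) *
          ∑' n : ℕ, ENNReal.ofReal ((2 : ℝ) ^ n) * ‖Zc c φ τ u 0 k j (lev f (l - 1 + n)) x‖ₑ) := by
        gcongr with j _
        exact one_chord hYB φ τ c hG f hf l k x u j
    _ = ENNReal.ofReal ((2 : ℝ) ^ l) * (ENNReal.ofReal (1 / (2 : ℝ) ^ u) *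
        ∑ j ∈ Finset.range (2 ^ u),
          ∑' n : ℕ, ENNReal.ofReal ((2 : ℝ) ^ n) *
            ‖Zc c φ τ u 0 k j (lev f (l - 1 + n)) x‖ₑ) := by
        rw [← Finset.mul_sum]
        ring

end Pool.Agent.Helper66.P3
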